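import Pool.Agent.Helper61.NW.Goals

set_option autoImplicit false

namespace Pool.Agent.Helper82.NW

open Pool.Agent.Helper61.NW Pool.Agent.Helper52.Wq2

universe u

theorem cyc : CycStmt.{u} := by
  intro V _ L hconn hdeg htr n hn hcard
  classical
  have hiso : ∀ u v, (L.neighborSet u).ncard = (L.neighborSet v).ncard := by
    intro u v
    obtain ⟨e, rfl⟩ := htr u v
    have h : L.neighborSet (e u) = e '' L.neighborSet u := by
      ext x
      constructor
      · intro hx
        refine ⟨e.symm x, ?_, by simp⟩
        have : L.Adj (e u) (e (e.symm x)) := by simpa using hx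
        exact e.map_adj_iff.1 this
      · rintro ⟨y, hy, rfl⟩
        exact e.map_adj_iff.2 hy
    rw [h, Set.ncard_image_of_injective _ e.injective]
  have h2 : ∀ v, (L.neighborSet v).ncard = 2 := by
    intro v
    by_contra hne
    have h1 : (L.neighborSet v).ncard ≤ 1 := by
      have := hdeg v
      omega
    have h1' : ∀ w, (L.neighborSet w).ncard ≤ 1 := fun w => (hiso w v).trans_le h1
    have hsub : ∀ w a b, L.Adj w a → L.Adj w b → a = b := by
      intro w a b ha hb
      exact (Set.ncard_le_one (Set.toFinite _)).1 (h1' w) a ha b hb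
    have hA : (Set.univ : Set V) ⊆ {v} ∪ L.neighborSet v := by
      apply hconn.2 _ (Set.subset_univ _) ⟨v, Or.inl rfl⟩
      rintro a (ha | ha) b - hab
      · rw [Set.mem_singleton_iff] at ha
        subst ha
        exact Or.inr hab
      · left
        exact hsub a b v hab (SimpleGraph.Adj.symm ha)
    have h3 := Set.ncard_le_ncard hA (Set.toFinite _)
    rw [Set.ncard_univ, hcard] at h3
    have h4 := Set.ncard_union_le {v} (L.neighborSet v)
    rw [Set.ncard_singleton] at h4
    omega
  have hcyc : L.IsCycles := fun v _ => h2 v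
  obtain ⟨v0, _⟩ := hconn.1
  have hne : (L.neighborSet v0).Nonempty := by
    rw [← Set.ncard_pos (Set.toFinite _), h2]
    norm_num
  obtain ⟨p, hp, -⟩ := hcyc.exists_cycle_toSubgraph_verts_eq_connectedComponentSupp
    (c := L.connectedComponentMk v0) rfl hne
  obtain ⟨l, hl⟩ : ∃ l, l = p.length := ⟨_, rfl⟩
  have hl3 : 3 ≤ l := hl ▸ hp.three_le_length
  have hnz : NeZero l := ⟨by omega⟩
  have hl1 : Fact (1 < l) := ⟨by omega⟩
  let f : ZMod l → V := fun k => p.getVert k.val
  have hval : ∀ k : ZMod l, (k + 1).val = (k.val + 1) % l := by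
    intro k
    rw [ZMod.val_add, ZMod.val_one]
  have key : ∀ i, i < l → L.Adj (p.getVert i) (p.getVert ((i + 1) % l)) := by
    intro i hi
    have h1 := p.adj_getVert_succ (i := i) (hl ▸ hi)
    by_cases hlt : i + 1 < l
    · rw [Nat.mod_eq_of_lt hlt]
      exact h1
    · have he : i + 1 = l := by omega
      rw [he, Nat.mod_self, SimpleGraph.Walk.getVert_zero]
      rw [he, hl, SimpleGraph.Walk.getVert_length] at h1
      exact h1
  have hadj : ∀ k : ZMod l, L.Adj (f k) (f (k + 1)) := by
    intro k
    change L.Adj (p.getVert k.val) (p.getVert (k + 1).val)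
    rw [hval]
    exact key _ (ZMod.val_lt k)
  have hinj : Function.Injective f := by
    intro a b hab
    apply ZMod.val_injective l
    have ha := ZMod.val_lt a
    have hb := ZMod.val_lt b
    exact hp.getVert_injOn' (by rw [Set.mem_setOf_eq]; omega) (by rw [Set.mem_setOf_eq]; omega) hab
  have h20 : (2 : ZMod l) ≠ 0 := by
    intro h
    have h5 : ((2 : ℕ) : ZMod l) = 0 := by exact_mod_cast h
    rw [ZMod.natCast_eq_zero_iff] at h5
    have := Nat.le_of_dvd (by norm_num) h5
    omega
  have hnb : ∀ (k : ZMod l) (x : V), L.Adj (f k) x → x = f (k + 1) ∨ x = f (k - 1) := by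
    intro k x hx
    have hsub : ({f (k + 1), f (k - 1)} : Set V) ⊆ L.neighborSet (f k) := by
      rintro y (rfl | hy)
      · exact hadj k
      · rw [Set.mem_singleton_iff] at hy
        rw [hy]
        have := hadj (k - 1)
        rw [sub_add_cancel] at this
        exact this.symm
    have hne' : f (k + 1) ≠ f (k - 1) := by
      intro h
      have h6 := hinj h
      apply h20
      have h7 : (k + 1) - (k - 1) = (0 : ZMod l) := by rw [h6, sub_self]
      rw [← h7]
      ring
    have heq := Set.eq_of_subset_of_ncard_le hsub (by rw [h2, Set.ncard_pair hne'])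
      (Set.toFinite _)
    have hx' : x ∈ L.neighborSet (f k) := hx
    rw [← heq] at hx'
    exact hx'
  have hsurj : Function.Surjective f := by
    intro x
    have hS : (Set.univ : Set V) ⊆ Set.range f := by
      apply hconn.2 (Set.range f) (Set.subset_univ _) ⟨f 0, 0, rfl⟩
      rintro _ ⟨k, rfl⟩ b - hb
      rcases hnb k b hb with rfl | rfl
      · exact ⟨_, rfl⟩
      · exact ⟨_, rfl⟩
    exact hS (Set.mem_univ x)
  have hb : Function.Bijective f := ⟨hinj, hsurj⟩
  have hnl : n = l := by
    rw [← hcard, ← Nat.card_congr (Equiv.ofBijective f hb), Nat.card_zmod]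
  subst hnl
  have hef : ∀ k, (Equiv.ofBijective f hb).symm (f k) = k := fun k =>
    (Equiv.ofBijective f hb).symm_apply_apply k
  refine ⟨(Equiv.ofBijective f hb).symm, fun u v => ?_⟩
  obtain ⟨a, rfl⟩ := hsurj u
  obtain ⟨b, rfl⟩ := hsurj v
  rw [hef, hef]
  constructor
  · intro h
    rcases hnb a _ h with h' | h'
    · exact Or.inl (hinj h')
    · right
      rw [hinj h', sub_add_cancel]
  · rintro (h | h)
    · rw [h]
      exact hadj a
    · rw [h]
      exact (hadj b).symm

end Pool.Agent.Helper82.NW
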