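import Pool.Agent.Helper65.NW.Goals2

/-!
# Packet NW-ALIN: the functions of the network of a cellular automaton are computed in linear space.
-/

namespace Pool.Agent.Helper82.NW

open Pool.Agent.Helper65.LinSpace Pool.Agent.Helper78.Mpc Pool.Agent.Helper28.Ram Finset
open Pool.Agent.Helper65.HC Pool.Agent.Helper65.NW

/-! ### Injectivity -/

theorem sc_inj {D : ℕ} (A : CA D) {q q' : A.State} (h : sc A q = sc A q') : q = q' := by
  have := A.finState
  unfold sc at h
  have h1 := (List.cons.inj h).2
  exact (Finite.equivFin A.State).injective (Fin.val_injective (Pool.Agent.Helper31.TMS.bits_inj h1))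

theorem dl_surj (D : ℕ) (δ : Fin D → Fin 3) : ∃ i < 3 ^ D, dl D i = δ := by
  have h : ∀ j < D, (if h : j < D then ((δ ⟨j, h⟩ : Fin 3) : ℕ) else 0) < 3 := by
    intro j hj
    rw [dif_pos hj]
    exact (δ ⟨j, hj⟩).2
  refine ⟨tab 3 D fun j => if h : j < D then ((δ ⟨j, h⟩ : Fin 3) : ℕ) else 0, tab_lt h, ?_⟩
  funext j
  apply Fin.ext
  show dig 3 (tab 3 D fun j => if h : j < D then ((δ ⟨j, h⟩ : Fin 3) : ℕ) else 0) j % 3 = (δ j : ℕ)
  rw [dig_tab h j.2, dif_pos j.2]
  exact Nat.mod_eq_of_lt (δ j).2

theorem cw_inj {D : ℕ} (A : CA D) (g g' : (Fin D → Fin 3) → A.State) (h : cw A g = cw A g') :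
    g = g' := by
  unfold cw at h
  have h1 := (Pool.Agent.Helper31.TMS.flatMap_inj
    (v := fun i => sc A (g (dl D i))) (v' := fun i => sc A (g' (dl D i)))
    (l := List.range (3 ^ D)) (r := []) (r' := []) (by simpa using h)).1
  funext δ
  obtain ⟨i, hi, rfl⟩ := dl_surj D δ
  exact sc_inj A (h1 i (List.mem_range.2 hi))

/-! ### The toolkit -/

theorem wls_opt {a : List Bool → Option Bool} (ha : ∀ c, PLS fun w => a w = c)
    {φ : Option Bool → List Bool → List Bool} (hφ : ∀ c, WLS (φ c)) : WLS fun w => φ (a w) w := by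
  refine WLS.congr (WLS.ite (ha none) (hφ none) (WLS.ite (ha (some true)) (hφ (some true))
    (hφ (some false)))) fun w => ?_
  rcases h : a w with _ | b
  · rw [if_pos rfl]
  · cases b
    · rw [if_neg (by simp), if_neg (by simp)]
    · rw [if_neg (by simp), if_pos rfl]

theorem wls_find {G : Type} [Finite G] {c : G → List Bool} (hc : Function.Injective c)
    {f : List Bool → List Bool} (hf : WLS f) (ψ : G → List Bool) :
    WLS fun w => open Classical in
      if h : ∃ g, f w = c g then ψ (Classical.choose h) else [] := by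
  classical
  have := Fintype.ofFinite G
  have h1 : ∀ l : List G, WLS fun w => l.foldr (fun g acc => if f w = c g then ψ g else acc) [] := by
    intro l
    induction l with
    | nil => exact WLS.const []
    | cons g l ih => exact WLS.ite (PLS.weq hf (WLS.const (c g))) (WLS.const (ψ g)) ih
  have h2 : ∀ (w : List Bool) (g : G), f w = c g → ∀ l : List G, g ∈ l →
      l.foldr (fun g acc => if f w = c g then ψ g else acc) [] = ψ g := by
    intro w g hg l
    induction l with
    | nil => intro h; simp at h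
    | cons g' l ih =>
      intro h
      rw [List.foldr_cons]
      by_cases h3 : f w = c g'
      · rw [if_pos h3]
        rw [hc (hg.symm.trans h3)]
      · rw [if_neg h3]
        rcases List.mem_cons.1 h with h4 | h4
        · exact absurd (h4 ▸ hg) h3
        · exact ih h4
  have h3 : ∀ (w : List Bool), (¬ ∃ g, f w = c g) → ∀ l : List G,
      l.foldr (fun g acc => if f w = c g then ψ g else acc) [] = [] := by
    intro w hg l
    induction l with
    | nil => rfl
    | cons g' l ih =>
      rw [List.foldr_cons, if_neg fun h => hg ⟨g', h⟩]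
      exact ih
  refine WLS.congr (h1 (Finset.univ : Finset G).toList) fun w => ?_
  by_cases h : ∃ g, f w = c g
  · rw [dif_pos h]
    exact h2 w _ (Classical.choose_spec h) _ (Finset.mem_toList.2 (Finset.mem_univ _))
  · rw [dif_neg h]
    exact h3 w h _

/-- The number `2 ^ (|f w| / D)`. -/
theorem nls_q {f : List Bool → List Bool} (hf : WLS f) (D : ℕ) :
    NLS fun w => 2 ^ ((f w).length / D) := by
  have h : LS fun x : ℕ => 2 ^ (Nat.log 2 x / D) := by
    refine LS.pow_of_le (f := fun _ => 2) (g := fun x : ℕ => Nat.log 2 x / D)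
      (C := fun x : ℕ => x + 1) (by fun_prop) (by fun_prop) (by fun_prop) fun x => ?_
    rcases Nat.eq_zero_or_pos x with h1 | h1
    · subst h1
      simp
    · exact (Nat.pow_le_pow_right (by norm_num) (Nat.div_le_self _ _)).trans
        ((Nat.pow_log_le_self 2 h1.ne').trans (Nat.le_succ _))
  exact (NLS.map (F := fun x => 2 ^ (Nat.log 2 x / D)) h hf).congr fun w => by rw [log_num]

/-- The number of the neighbour. -/
theorem nls_tab {Q Z R : List Bool → ℕ} (hQ : NLS Q) (hZ : NLS Z) (hR : NLS R)
    (hQ0 : ∀ w, 0 < Q w) (D : ℕ) :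
    NLS fun w => tab (Q w) D fun j => (dig (Q w) (Z w) j + dig 3 (R w) j + Q w - 1) % Q w := by
  have h : LS fun z : ℕ × ℕ × ℕ => tab (z.1 + 1) D fun j =>
      (dig (z.1 + 1) z.2.1 j + dig 3 z.2.2 j + (z.1 + 1) - 1) % (z.1 + 1) := by
    refine LS.tab (q := fun z : ℕ × ℕ × ℕ => z.1 + 1) (m := fun _ => D)
      (C := fun z : ℕ × ℕ × ℕ => (z.1 + 1) ^ D)
      (d := fun z j => (dig (z.1 + 1) z.2.1 j + dig 3 z.2.2 j + (z.1 + 1) - 1) % (z.1 + 1))
      (by fun_prop) (by fun_prop) (by fun_prop) (by fun_prop) (fun z i _ => ?_) fun z => le_rfl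
    exact Nat.mod_lt _ (Nat.succ_pos _)
  refine (NLS.map3 (F := fun q z r => tab (q + 1) D fun j =>
      (dig (q + 1) z j + dig 3 r j + (q + 1) - 1) % (q + 1)) h (hQ.sub (NLS.const 1)) hZ hR).congr
    fun w => ?_
  have := hQ0 w
  rw [show Q w - 1 + 1 = Q w by omega]

theorem wls_anb (D : ℕ) : WLS (anb D) := by
  refine WLS.padd (f := fun u => hp u) (g := fun u =>
    (tab (2 ^ ((hp u).length / D)) D fun j =>
    (dig (2 ^ ((hp u).length / D)) (bval (hz u)) j + dig 3 (bval (hr u)) j +
      2 ^ ((hp u).length / D) - 1) % 2 ^ ((hp u).length / D)).bits) (WLS.hp WLS.id) ?_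
  exact WLS.bits (nls_tab (nls_q (WLS.hp WLS.id) D) (WLS.val (WLS.hz WLS.id))
    (WLS.val (WLS.hr WLS.id)) (fun w => by positivity) D)

theorem pls_alive (D : ℕ) {f : List Bool → List Bool} (hf : WLS f) :
    PLS fun x => Alive D (f x) := by
  refine PLS.and (P := fun x => D * ((hp (f x)).length / D) = (hp (f x)).length) ?_
    (PLS.and (P := fun x => bval (hp (f x)) = 0)
      (Q := fun x => 2 * (ht (f x) + 1) < 2 ^ ((hp (f x)).length / D)) ?_ ?_)
  · exact PLS.eq ((NLS.const D).mul ((WLS.length (WLS.hp hf)).div (NLS.const D)))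
      (WLS.length (WLS.hp hf))
  · exact PLS.eq (WLS.val (WLS.hp hf)) (NLS.const 0)
  · exact PLS.lt ((NLS.const 2).mul ((NLS.ht hf).add (NLS.const 1))) (nls_q (WLS.hp hf) D)

theorem wls_anext {D : ℕ} (A : CA D) : WLS (anext A) := by
  classical
  have := A.finState
  have hre : WLS fun x => re (re x) := WLS.re (WLS.re WLS.id)
  have h1 : WLS fun x => sc A (A.init (pr x)[0]? (pr (re x))[0]?) :=
    wls_opt (a := fun x => (pr x)[0]?)
      (φ := fun c x => sc A (A.init c (pr (re x))[0]?))
      (fun c => LC.letter_eq (LC.of_wls (WLS.pr WLS.id)) 0 c)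
      fun c => wls_opt (a := fun x => (pr (re x))[0]?) (φ := fun c' _ => sc A (A.init c c'))
        (fun c' => LC.letter_eq (LC.of_wls (WLS.pr (WLS.re WLS.id))) 0 c')
        fun c' => WLS.const _
  have h2 : WLS fun x => if h : ∃ g, hr (re (re x)) = cw A g then
      sc A (A.rule (Classical.choose h)) else [] :=
    wls_find (c := cw A) (fun g g' h => cw_inj A g g' h) (WLS.hr hre) fun g => sc A (A.rule g)
  refine WLS.congr (WLS.ite (pls_alive D hre) (WLS.ite (PLS.eq (NLS.ht hre) (NLS.const 0))
    (WLS.ite (PLS.lt ((NLS.const 2).mul (WLS.val (WLS.hz hre))) (nls_q (WLS.hp hre) D)) h1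
      (WLS.const (sc A (A.init none none)))) h2) (WLS.const [])) fun x => ?_
  unfold anext
  by_cases ha : Alive D (re (re x))
  · simp only [if_pos ha]
  · simp only [if_neg ha]

/-- The network. -/
noncomputable def caNet {D : ℕ} (A : CA D) : Net where
  deg := 3 ^ D
  nb := anb D
  addr := fun u => hz u
  next := anext A
  nb_lin := LC.of_wls (wls_anb D)
  addr_lin := LC.of_wls (WLS.hz WLS.id)
  next_lin := LC.of_wls (wls_anext A)

theorem isCA_caNet {D : ℕ} (A : CA D) : IsCA A (caNet A) where
  deg := by unfold caNet; rfl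
  nb := by unfold caNet; rfl
  addr := by simp only [caNet]
  next := by unfold caNet; rfl

theorem alin : ALIN_stmt := by
  unfold ALIN_stmt
  intro D A
  exact ⟨⟨caNet A, isCA_caNet A⟩, cw_inj A⟩

end Pool.Agent.Helper82.NW
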